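import Mathlib
import Pool.Agent.X265.Geo.Omega

/-!
# Exponential geodesic growth of the groups `G_ω` for all generating sets contained in `{a, b, c, d}`

`G_ω` is the Grigorchuk group of an arbitrary sequence `ω` in three symbols, generated by `a` and `t 0, t 1, t 2`
(usually called `b, c, d`). Let `S ⊆ {a, t 0, t 1, t 2}` contain `a` and the letters `t i` with `i ≠ k`. If the
symbol `k` occurs in `ω`, then the geodesic growth of `G_ω` with respect to `S` is exponential.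
-/

set_option autoImplicit false

namespace Pool.Agent.Results.MP_bf8038_al.GrigorchukFamily

open Pool.Agent.X265.Geo.Om

/-- Let `ω` be a sequence in `{0, 1, 2}` with `ω j = k` and let `S` be a set of letters which contains `a` and all
`t i` with `i ≠ k`. Then there are at least `2 ^ ⌊n / 2 ^ (j + 2)⌋` geodesic words of length `n` over `S` in
`G_ω`; so their number is at least `c ^ n / 2` for a constant `c > 1`. -/
theorem result (ω : ℕ → Fin 3) (S : Set Let) (k : Fin 3) (j : ℕ) (haS : Let.a ∈ S)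
    (hS : ∀ i, i ≠ k → Let.t i ∈ S) (hω : ω j = k) :
    (∀ n : ℕ, 2 ^ (n / 2 ^ (j + 2)) ≤ (geod ω S n).ncard) ∧
    ∃ c : ℝ, 1 < c ∧ ∀ n : ℕ, c ^ n ≤ 2 * ((geod ω S n).ncard : ℝ) := by
  have h1 := lower ω S k j haS hS hω
  refine ⟨h1, (2 : ℝ) ^ (1 / (2 ^ (j + 2) : ℝ)), Real.one_lt_rpow (by norm_num) (by positivity), ?_⟩
  intro n
  have h2 : ((2 : ℝ) ^ (1 / (2 ^ (j + 2) : ℝ))) ^ n = (2 : ℝ) ^ ((n : ℝ) / 2 ^ (j + 2)) := by
    rw [← Real.rpow_natCast, ← Real.rpow_mul (by norm_num)]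
    congr 1
    ring
  have h3 : (n : ℝ) / 2 ^ (j + 2) ≤ ((n / 2 ^ (j + 2) + 1 : ℕ) : ℝ) := by
    rw [div_le_iff₀ (by positivity)]
    have h4 : n ≤ (n / 2 ^ (j + 2) + 1) * 2 ^ (j + 2) := by
      have h5 := Nat.div_add_mod n (2 ^ (j + 2))
      have h6 := Nat.mod_lt n (show 0 < 2 ^ (j + 2) by positivity)
      have h7 : (n / 2 ^ (j + 2) + 1) * 2 ^ (j + 2) = 2 ^ (j + 2) * (n / 2 ^ (j + 2)) + 2 ^ (j + 2) := by ring
      omega
    exact_mod_cast h4
  rw [h2]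
  calc (2 : ℝ) ^ ((n : ℝ) / 2 ^ (j + 2)) ≤ (2 : ℝ) ^ ((n / 2 ^ (j + 2) + 1 : ℕ) : ℝ) :=
        Real.rpow_le_rpow_of_exponent_le (by norm_num) h3
    _ = 2 * (2 : ℝ) ^ (n / 2 ^ (j + 2)) := by rw [Real.rpow_natCast, pow_succ]; ring
    _ ≤ 2 * ((geod ω S n).ncard : ℝ) := by
        have h8 : ((2 ^ (n / 2 ^ (j + 2)) : ℕ) : ℝ) ≤ ((geod ω S n).ncard : ℝ) := by exact_mod_cast h1 n
        push_cast at h8
        linarith

end Pool.Agent.Results.MP_bf8038_al.GrigorchukFamily
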